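import Pool.Agent.H68.SF.LT3

/-! Part L (constructibility): consequences of regularity. -/

open Ordinal Cardinal Order Set
open scoped ZFSet

namespace SF

private theorem LRI_union {M : V → Prop} (k : ZFm M) {a b : V} (ha : M a) (hb : M b) :
    M (a ∪ b) := by
  have h := (Tm.union (Tm.var 0) (Tm.var 1)).1 M k (cons a fun _ => b)
    (In.cons (fun _ => hb) ha)
  exact h

private theorem LRI_diff {M : V → Prop} (k : ZFm M) {a b : V} (ha : M a) (hb : M b) :
    M (a \ b) := by
  have h := (Tm.diff (Tm.var 0) (Tm.var 1)).1 M k (cons a fun _ => b)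
    (In.cons (fun _ => hb) ha)
  exact h

private theorem LRI_id {M : V → Prop} (k : ZFm M) {a : V} (ha : M a) :
    M (resS a fun t => t) := by
  have h := (Tm.resS (Tm.var 0) (Tm.var 0)).1 M k (fun _ => a) (fun _ => ha)
  exact h

private theorem LRI_const {M : V → Prop} (k : ZFm M) {a b : V} (ha : M a) (hb : M b) :
    M (resS a fun _ => b) := by
  have h := (Tm.resS (Tm.var 0) (Tm.var 2)).1 M k (cons a fun _ => b)
    (In.cons (fun _ => hb) ha)
  exact h

private theorem LRI_gr {M : V → Prop} (k : ZFm M) {a f : V} (ha : M a) (hf : M f) :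
    M (resS a fun u => ZFSet.pair u (app f u)) := by
  have h := (Tm.resS (Tm.var 0) (Tm.pair (Tm.var 0) (Tm.app (Tm.var 2) (Tm.var 0)))).1 M k
    (cons a fun _ => f) (In.cons (fun _ => hf) ha)
  exact h

theorem pf_LRI : T_LRI := by
  intro N M kM kN hN hreg
  constructor
  · intro x hx R hR hRx
    rcases ZFSet.eq_empty_or_nonempty R with h0 | ⟨t0, ht0⟩
    · rw [h0]
      exact kN.mempty
    · have hxM : M x := kM.trans N hN x hx
      have ht0M : M t0 := kM.trans R hR t0 ht0
      have hfM : M (resS R (fun t => t) ∪ resS (x \ R) fun _ => t0) :=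
        LRI_union kM (LRI_id kM hR) (LRI_const kM (LRI_diff kM hxM hR) ht0M)
      have hmem : ∀ u y : V, ZFSet.pair u y ∈ (resS R (fun t => t) ∪ resS (x \ R) fun _ => t0) ↔
          (u ∈ R ∧ y = u) ∨ ((u ∈ x ∧ u ∉ R) ∧ y = t0) := by
        intro u y
        rw [ZFSet.mem_union, pair_mem_resS, pair_mem_resS, ZFSet.mem_sdiff]
      have hsub : ∀ t ∈ R, t ∈ N := fun t ht => kN.trans x hx t (hRx ht)
      have hfun : ZFSet.IsFunc x N (resS R (fun t => t) ∪ resS (x \ R) fun _ => t0) := by
        constructor
        · intro z hz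
          rcases ZFSet.mem_union.1 hz with hz | hz
          · obtain ⟨t, ht, rfl⟩ := mem_resS.1 hz
            exact ZFSet.pair_mem_prod.2 ⟨hRx ht, hsub t ht⟩
          · obtain ⟨t, ht, rfl⟩ := mem_resS.1 hz
            exact ZFSet.pair_mem_prod.2 ⟨(ZFSet.mem_sdiff.1 ht).1, hsub t0 ht0⟩
        · intro u hu
          by_cases huR : u ∈ R
          · refine ⟨u, (hmem u u).2 (Or.inl ⟨huR, rfl⟩), fun y hy => ?_⟩
            rcases (hmem u y).1 hy with h | h
            · exact h.2
            · exact absurd huR h.1.2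
          · refine ⟨t0, (hmem u t0).2 (Or.inr ⟨⟨hu, huR⟩, rfl⟩), fun y hy => ?_⟩
            rcases (hmem u y).1 hy with h | h
            · exact absurd h.1 huR
            · exact h.2
      have h1 := hreg x hx _ hfM hfun
      have h2 : rnF N x (resS R (fun t => t) ∪ resS (x \ R) fun _ => t0) = R := by
        ext y
        unfold rnF
        rw [ZFSet.mem_sep]
        constructor
        · rintro ⟨-, u, hu, hy⟩
          rcases (hmem u y).1 hy with h | h
          · rw [h.2]
            exact h.1
          · rw [h.2]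
            exact ht0
        · intro hy
          exact ⟨hsub y hy, y, hRx hy, (hmem y y).2 (Or.inl ⟨hy, rfl⟩)⟩
      rwa [h2] at h1
  · intro x hx f hf hfun
    have hxM : M x := kM.trans N hN x hx
    have h1 := hreg x hx _ (LRI_gr kM hxM hf)
      (isFunc_resS x N _ fun u hu => kN.mpair (kN.trans x hx u hu) (app_mem hfun hu))
    have h2 : rnF N x (resS x fun u => ZFSet.pair u (app f u)) = f := by
      ext y
      unfold rnF
      rw [ZFSet.mem_sep]
      constructor
      · rintro ⟨-, u, hu, hy⟩
        rw [(pair_mem_resS.1 hy).2]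
        exact pair_app_mem hfun hu
      · intro hy
        obtain ⟨u, hu, b, hb, rfl⟩ := ZFSet.mem_prod.1 (hfun.1 hy)
        have h3 : b = app f u := ((pair_mem_iff_app hfun).1 hy).2
        refine ⟨kN.mpair (kN.trans x hx u hu) hb, u, hu, ?_⟩
        rw [pair_mem_resS]
        exact ⟨hu, by rw [← h3]⟩
    rwa [h2] at h1

end SF
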