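import Pool.Agent.H84.SF.Geo
import Pool.Agent.H27.LV.Curve

/-!
Row BDV of the board sfc_modules: derivations of a function field at a place.
-/

set_option autoImplicit false

namespace Pool.Agent.H1.SF

open Pool.Agent.H84.SF
open MvPolynomial SC
open Pool.Agent.H27.LV (ge deg poleOrder canDeg)
open Pool.Agent.H92.OD (HS cf sg uu Lat geO IsO DF DD)
open Pool.Agent.H84.SM (y1 y2 Near cr dt)

theorem pf_BDV : T_BDV := by
  intro k K _ _ _ _ _ _ htr D v
  by_cases hD : D = 0
  · refine ⟨0, fun z t _ => Or.inl ?_⟩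
    rw [hD]
    rfl
  · obtain ⟨-, ⟨-, h2⟩, -⟩ := Pool.Agent.H27.LV.dor k K htr D hD v
    refine ⟨1 - Pool.Agent.H27.LV.ordD v D, fun z t hz => ?_⟩
    by_cases h0 : z = 0
    · left
      rw [h0, map_zero]
    · have h3 := h2 z h0
      have h4 := hz.resolve_left h0
      rcases h3 with h3 | h3
      · exact Or.inl h3
      · exact Or.inr (by omega)

end Pool.Agent.H1.SF
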