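import Pool.Agent.H3.SF.Targets
import Pool.Agent.H14.SQ.ORD

/-!
# Row CLK of the board spw (helper3, MP_634266_nt)

The number of exponents of a class killed by a prime.
-/

set_option autoImplicit false

namespace Pool.Agent.H1.SF

open Finset Pool.Agent.H3.SF Pool.Agent.H99.SQ

theorem pf_CLK : T_CLK := by
  classical
  intro p P l0 n N A hp hP hA
  obtain ⟨hm, _, _, hiff, _, _⟩ := Pool.Agent.H14.SQ.pf_ORD p hp
  set c := Nat.lcm P (mm p) with hc
  have hcpos : 0 < c := Nat.lcm_pos hP hm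
  have hmod : ∀ l ∈ A, ∀ l' ∈ A, l ≡ l' [MOD c] := by
    intro l hl l' hl'
    obtain ⟨_, h1, h2⟩ := hA l hl
    obtain ⟨_, h1', h2'⟩ := hA l' hl'
    have h3 : l ≡ l' [MOD P] := h1.trans h1'.symm
    have h4 : l ≡ l' [MOD mm p] := by
      rw [← hiff]
      exact (show (n : ZMod (p ^ 2)) = 2 ^ l from h2).symm.trans h2'
    rw [Nat.modEq_iff_dvd] at h3 h4 ⊢
    rw [hc, Nat.lcm]
    have h5 : ((P : ℕ) : ℤ) ∣ (l' : ℤ) - l := h3
    have h6 : ((mm p : ℕ) : ℤ) ∣ (l' : ℤ) - l := h4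
    have h7 : Nat.lcm P (mm p) ∣ ((l' : ℤ) - l).natAbs :=
      Nat.lcm_dvd (Int.natCast_dvd.mp h5) (Int.natCast_dvd.mp h6)
    exact Int.natCast_dvd.mpr h7
  have h1 : A.card ≤ (range (N / c + 1)).card := by
    apply Finset.card_le_card_of_injOn (fun l => l / c)
    · intro l hl
      have h2 := (hA l (Finset.mem_coe.mp hl)).1
      rw [Finset.mem_coe, Finset.mem_range]
      exact Nat.lt_succ_of_le (Nat.div_le_div_right h2.le)
    · intro l hl l' hl' h
      have h2 := hmod l (Finset.mem_coe.mp hl) l' (Finset.mem_coe.mp hl')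
      have h3 : l / c = l' / c := h
      rw [← Nat.div_add_mod l c, ← Nat.div_add_mod l' c, h3, h2]
  rwa [Finset.card_range] at h1

end Pool.Agent.H1.SF
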