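import Pool.Agent.H3.SF.Targets
import Pool.Agent.H14.SQ.ORD

/-!
# Row CLS of the board spw (helper3, MP_634266_nt)

The residues such that a prime kills an exponent of a class.
-/

set_option autoImplicit false

namespace Pool.Agent.H1.SF

open Finset Pool.Agent.H3.SF Pool.Agent.H99.SQ

theorem pf_CLS : T_CLS := by
  classical
  intro p P l0 T hp hP hT
  obtain ⟨hm, _, _, hiff, _, _⟩ := Pool.Agent.H14.SQ.pf_ORD p hp
  set m := mm p with hmdef
  set c := m / Nat.gcd P m with hc
  have hlcm : Nat.lcm P m = P * c := by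
    unfold Nat.lcm
    rw [hc, Nat.mul_div_assoc _ (Nat.gcd_dvd_right P m)]
  have hcT : c ≤ T := by
    rw [hlcm, mul_comm P c] at hT
    exact Nat.le_of_mul_le_mul_right hT hP
  have hcpos : 0 < c := by
    rw [hc]
    exact Nat.div_pos (Nat.le_of_dvd hm (Nat.gcd_dvd_right P m)) (Nat.gcd_pos_of_pos_left _ hP)
  have hp2 : 0 < p ^ 2 := pow_pos hp.1.pos 2
  refine ⟨(range c).image fun k => 2 ^ (l0 + k * P) % p ^ 2, ?_, ?_, ?_⟩
  · refine Finset.card_image_le.trans ?_
    rw [Finset.card_range]
    exact hcT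
  · intro b hb
    rw [Finset.mem_image] at hb
    obtain ⟨k, _, rfl⟩ := hb
    exact Nat.mod_lt _ hp2
  · intro n l hl hK
    -- a larger representative
    have hPm : 1 ≤ P * m := Nat.mul_pos hP hm
    have h1 : l0 ≤ l + P * m * l0 := by nlinarith
    have h2 : l + P * m * l0 ≡ l0 [MOD P] := by
      have h3 : P * m * l0 ≡ 0 [MOD P] := by
        rw [Nat.modEq_zero_iff_dvd, mul_assoc]
        exact dvd_mul_right _ _
      simpa using hl.add h3
    have h4 : P ∣ l + P * m * l0 - l0 := (Nat.modEq_iff_dvd' h1).mp h2.symm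
    obtain ⟨j, hj⟩ := h4
    have h5 : l + P * m * l0 = l0 + P * j := by omega
    have h6 : l0 + (j % c) * P ≡ l [MOD m] := by
      have h7 : l0 + P * j ≡ l [MOD m] := by
        rw [← h5]
        have h8 : P * m * l0 ≡ 0 [MOD m] := by
          rw [Nat.modEq_zero_iff_dvd]
          exact Dvd.intro (P * l0) (by ring)
        simpa using (Nat.ModEq.refl l).add h8
      refine Nat.ModEq.trans ?_ h7
      have h9 : P * j = j % c * P + P * c * (j / c) := by
        conv_lhs => rw [← Nat.mod_add_div j c]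
        ring
      rw [h9]
      have h10 : P * c * (j / c) ≡ 0 [MOD m] := by
        rw [Nat.modEq_zero_iff_dvd, ← hlcm]
        exact (Nat.dvd_lcm_right P m).mul_right _
      have h11 := (Nat.ModEq.refl (l0 + j % c * P)).add h10
      rw [add_zero, add_assoc] at h11
      exact h11.symm
    rw [Finset.mem_image]
    refine ⟨j % c, Finset.mem_range.mpr (Nat.mod_lt _ hcpos), ?_⟩
    have h12 := (hiff _ _).mpr h6
    have h13 : ((n : ℕ) : ZMod (p ^ 2)) = ((2 ^ (l0 + j % c * P) : ℕ) : ZMod (p ^ 2)) := by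
      push_cast
      rw [h12]
      exact hK
    exact ((ZMod.natCast_eq_natCast_iff _ _ _).mp h13).symm

end Pool.Agent.H1.SF
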