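import Pool.Agent.H84.SF.Geo2

/-!
Row CRS of the board sfc_modules: scaling of the coordinates.
-/

set_option autoImplicit false

namespace Pool.Agent.H1.SF

open Pool.Agent.H84.SF
open MvPolynomial SC
open Pool.Agent.H84.SM (y1 y2 Near cr dt)

/-- a polynomial whose derivative along `p` vanishes is constant on the lines of direction `p` -/
theorem eval_shift {K : Type} [Field K] [CharZero K] (p y : Fin 3 → K)
    (b : MvPolynomial (Fin 3) K) (hb : ∑ i, C (p i) * pderiv i b = 0) (η : K) :
    eval (fun i => y i + η * p i) b = eval y b := by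
  obtain ⟨f, hf⟩ : ∃ f : Fin 3 → Polynomial K,
      f = fun i => Polynomial.C (y i) + Polynomial.C (p i) * Polynomial.X := ⟨_, rfl⟩
  have hder : ∀ g : MvPolynomial (Fin 3) K, Polynomial.derivative (aeval f g) =
      aeval f (∑ i, C (p i) * pderiv i g) := by
    intro g
    induction g using MvPolynomial.induction_on with
    | C a =>
      simp [algHom_C]
    | add g h hg hh =>
      rw [map_add, map_add, hg, hh, ← map_add, ← Finset.sum_add_distrib]
      congr 1
      exact Finset.sum_congr rfl fun i _ => by rw [map_add, mul_add]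
    | mul_X g j hg =>
      rw [map_mul, aeval_X, Polynomial.derivative_mul, hg]
      have h1 : Polynomial.derivative (f j) = Polynomial.C (p j) := by
        rw [hf]
        simp
      have h2 : ∑ i, C (p i) * pderiv i (g * X j) =
          (∑ i, C (p i) * pderiv i g) * X j + g * C (p j) := by
        have h3 : ∀ i, C (p i) * pderiv i (g * X j) =
            C (p i) * pderiv i g * X j + g * (C (p i) * pderiv i (X j : MvPolynomial _ K)) := by
          intro i
          rw [Derivation.leibniz, smul_eq_mul, smul_eq_mul]
          ring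
        rw [Finset.sum_congr rfl fun i _ => h3 i, Finset.sum_add_distrib, ← Finset.sum_mul,
          ← Finset.mul_sum]
        congr 2
        rw [Finset.sum_eq_single j]
        · rw [pderiv_X_self, mul_one]
        · intro i _ hi
          rw [pderiv_X_of_ne hi.symm, mul_zero]
        · intro h
          exact absurd (Finset.mem_univ _) h
      rw [h2, map_add, map_mul, map_mul, aeval_X, h1, algHom_C]
      rfl
  have h0 : Polynomial.derivative (aeval f b) = 0 := by
    rw [hder, hb, map_zero]
  have h1 := Polynomial.natDegree_eq_zero_of_derivative_eq_zero h0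
  obtain ⟨c, hc⟩ := Polynomial.natDegree_eq_zero.mp h1
  have hev : ∀ x : K, (aeval f b).eval x = eval (fun i => y i + x * p i) b := by
    intro x
    have h2 : (aeval f b).eval x = (Polynomial.aeval x) (aeval f b) := by
      rw [Polynomial.aeval_def, Polynomial.eval₂_eq_eval_map]
      simp
    have h3 : ((Polynomial.aeval x : Polynomial K →ₐ[K] K).comp (aeval f)) =
        (aeval (fun i => y i + x * p i) : MvPolynomial (Fin 3) K →ₐ[K] K) := by
      refine MvPolynomial.algHom_ext fun i => ?_
      rw [AlgHom.comp_apply, aeval_X, aeval_X, hf]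
      simp
      ring
    rw [h2, ← AlgHom.comp_apply, h3, aeval_eq_eval]
  have e1 := hev η
  have e2 := hev 0
  rw [← hc] at e1 e2
  simp only [Polynomial.eval_C, zero_mul, add_zero] at e1 e2
  rw [← e1, e2]

theorem pf_CRS : T_CRS := by
  intro k K _ _ _ _ D t A p b ht hb3 hb
  have hD : ∀ i, D (t * p i) = D t * p i + t * D (p i) := by
    intro i
    rw [Derivation.leibniz, smul_eq_mul, smul_eq_mul]
    ring
  have hDD : ∀ i, D (D t * p i + t * D (p i)) =
      D (D t) * p i + 2 * (D t * D (p i)) + t * D (D (p i)) := by
    intro i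
    rw [map_add, Derivation.leibniz, Derivation.leibniz, smul_eq_mul, smul_eq_mul,
      smul_eq_mul, smul_eq_mul]
    ring
  have h1 : dt (fun i => t * p i) (fun i => D (t * p i)) (fun i => D (D (t * p i))) =
      t ^ 3 * dt p (fun i => D (p i)) (fun i => D (D (p i))) := by
    simp only [hD, hDD]
    unfold dt Pool.Agent.H84.SM.dp cr
    simp only [Fin.sum_univ_three, Fin.isValue]
    have a1 : (0 : Fin 3) + 1 = 1 := rfl
    have a2 : (0 : Fin 3) + 2 = 2 := rfl
    have a3 : (1 : Fin 3) + 1 = 2 := rfl
    have a4 : (1 : Fin 3) + 2 = 0 := rfl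
    have a5 : (2 : Fin 3) + 1 = 0 := rfl
    have a6 : (2 : Fin 3) + 2 = 1 := rfl
    rw [a1, a2, a3, a4, a5, a6]
    ring
  have h2 : eval (fun i => D (t * p i)) b = t ^ 3 * eval (fun i => D (p i)) b := by
    have h3 : (fun i => D (t * p i)) = fun i => t * (D (p i) + D t / t * p i) := by
      funext i
      rw [hD]
      field_simp
      ring
    rw [h3]
    have h4 : eval (fun i => t * (D (p i) + D t / t * p i)) b =
        t ^ 3 * eval (fun i => D (p i) + D t / t * p i) b := by
      rw [eval_eq, eval_eq, Finset.mul_sum]
      refine Finset.sum_congr rfl fun d hd => ?_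
      have hd3 : ∑ i, d i = 3 := by
        have h5 := hb3 (mem_support_iff.mp hd)
        rw [Finsupp.weight_apply, Finsupp.sum_fintype _ _ (by simp)] at h5
        simpa using h5
      have h6 : ∏ i ∈ d.support, (t * (D (p i) + D t / t * p i)) ^ d i =
          t ^ 3 * ∏ i ∈ d.support, (D (p i) + D t / t * p i) ^ d i := by
        have h7 : ∏ i ∈ d.support, t ^ d i = t ^ 3 := by
          rw [Finset.prod_pow_eq_pow_sum]
          congr 1
          refine Eq.trans ?_ hd3
          exact Finset.sum_subset (Finset.subset_univ _) fun i _ hi => by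
            simpa using hi
        rw [← h7, ← Finset.prod_mul_distrib]
        exact Finset.prod_congr rfl fun i _ => mul_pow _ _ _
      rw [h6]
      ring
    rw [h4, eval_shift p (fun i => D (p i)) b hb (D t / t)]
  rw [h1, h2]
  ring

end Pool.Agent.H1.SF
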