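import Pool.Agent.H3.SF.Tg2

/-!
Row FAC of the board srf_modules: factorisation in homogeneous irreducible elements.
-/

set_option autoImplicit false

namespace Pool.Agent.H1.SF

open MvPolynomial SC Pool.Agent.H27.LV
open Pool.Agent.H84.SM (dp cr dt)
open Pool.Agent.H92.SF Pool.Agent.H3.SF

theorem pf_FAC (hHFA : T_HFA) (hHFB : T_HFB) (hTWM : T_TWM) : T_FAC := by
  have _ := hHFB
  have _ := hTWM
  intro k F _ _ _ _ _ u dd δ j0 c0 J hS n τ V hV hTw
  have hcq : ∀ e : F, e ≠ 0 → IsUnit (cq e) := fun e he =>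
    (isUnit_iff_ne_zero.mpr he).map (cq : F →+* Q2 F)
  have key : ∀ V : Q2 F, ∀ e : F, e ≠ 0 → ∀ (n : ℕ) (τ : ℤ), V ≠ 0 → Tw u dd n τ (cq e * V) →
      ∃ (s : List (Q2 F)) (c : F) (t : ℤ), c ≠ 0 ∧ Hm k (eu u dd) t c ∧
        cq e * V = cq c * s.prod ∧
        ∀ P ∈ s, Irreducible P ∧ ∃ (w : ℕ) (τ' : ℤ), Tw u dd w τ' P := by
    intro V
    refine WfDvdMonoid.induction_on_irreducible V ?_ ?_ ?_
    · intro e _ n τ h
      exact absurd rfl h
    · intro v hv e he n τ _ hT
      obtain ⟨r, hr, rfl⟩ := Polynomial.isUnit_iff.mp hv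
      obtain ⟨c, hc, rfl⟩ := MvPolynomial.isUnit_iff_eq_C_of_isReduced.mp hr
      have h1 : cq e * Polynomial.C (C c) = cq (e * c) := by
        rw [map_mul]
        rfl
      rw [h1] at hT
      refine ⟨[], e * c, τ - 2 * n + 3 * (0 : ℕ), mul_ne_zero he hc.ne_zero, ?_, ?_, by simp⟩
      · have h2 := hT.2 0 0
        have h3 : ((cq (e * c)).coeff 0).coeff 0 = e * c := by
          unfold cq
          simp
        rwa [h3] at h2
      · rw [h1, List.prod_nil, mul_one]
    · intro a i ha hi ih e he n τ _ hT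
      rw [← mul_assoc] at hT
      have hne : cq e * i * a ≠ 0 :=
        mul_ne_zero (mul_ne_zero (hcq e he).ne_zero hi.ne_zero) ha
      obtain ⟨c, w, n', τ1, τ2, hc, -, -, hT1, hT2⟩ :=
        hHFA k F u dd δ j0 c0 J hS n τ (cq e * i) a hne hT
      obtain ⟨s, c', t, h1, h2, h3, h4⟩ := ih c⁻¹ (inv_ne_zero hc) n' τ2 ha hT2
      refine ⟨(cq c * (cq e * i)) :: s, c', t, h1, h2, ?_, ?_⟩
      · rw [List.prod_cons]
        have h5 : cq c * cq c⁻¹ = (1 : Q2 F) := by
          rw [← map_mul, mul_inv_cancel₀ hc, map_one]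
        calc cq e * (i * a) = (cq c * (cq e * i)) * (cq c⁻¹ * a) := by
              calc cq e * (i * a) = (cq c * cq c⁻¹) * (cq e * (i * a)) := by rw [h5, one_mul]
                _ = _ := by ring
          _ = (cq c * (cq e * i)) * (cq c' * s.prod) := by rw [h3]
          _ = _ := by ring
      · intro P hP
        rcases List.mem_cons.mp hP with rfl | hP
        · refine ⟨?_, w, τ1, hT1⟩
          rw [irreducible_isUnit_mul (hcq c hc), irreducible_isUnit_mul (hcq e he)]
          exact hi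
        · exact h4 P hP
  have h1 : (cq (1 : F) : Q2 F) * V = V := by rw [map_one, one_mul]
  obtain ⟨s, c, t, h2, h3, h4, h5⟩ := key V 1 one_ne_zero n τ hV (by rw [h1]; exact hTw)
  rw [h1] at h4
  exact ⟨s, c, t, h2, h3, h4, h5⟩

end Pool.Agent.H1.SF
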