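import Pool.Agent.H3.SF.Targets
import Pool.Agent.H14.SQ.ORD

/-!
# Row M3 of the board spw (helper3, MP_634266_nt)

The local-global principle.
-/

set_option autoImplicit false

namespace Pool.Agent.H1.SF

open Finset Pool.Agent.H3.SF Pool.Agent.H99.SQ

/-- the numerical end of the argument -/
theorem close_end {r u u' L Lam lam P η : ℝ} (hη : 0 < η) (hLam : 1 ≤ Lam)
    (hl1 : Lam ≤ lam) (hl2 : lam < Lam + 1) (hL : L ≤ 2 * Lam) (hP : P + 10 ≤ η * L)
    (hu0 : 0 ≤ u) (hu1 : u ≤ 1) (h1 : |r - u' * Lam| ≤ η * L + P + 2)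
    (h2 : u ≤ u') (h3 : u' ≤ u + 2 * η) : |r / lam - u| ≤ 6 * η := by
  have hlam : 0 < lam := by linarith
  have h4 : |r - u * lam| ≤ 6 * η * Lam := by
    rw [abs_le] at h1 ⊢
    have h5 : 0 ≤ (u' - u) * Lam := mul_nonneg (by linarith) (by linarith)
    have h6 : (u' - u) * Lam ≤ 2 * η * Lam := mul_le_mul_of_nonneg_right (by linarith) (by linarith)
    have h7 : 0 ≤ u * (lam - Lam) := mul_nonneg hu0 (by linarith)
    have h8 : u * (lam - Lam) ≤ 1 := by nlinarith
    have h9 : η * L ≤ 2 * η * Lam := by nlinarith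
    constructor <;> nlinarith
  have h5 : r / lam - u = (r - u * lam) / lam := by field_simp
  rw [h5, abs_div, abs_of_pos hlam, div_le_iff₀ hlam]
  nlinarith

theorem pf_M3 (hUUF : T_UUF) (hLGC : T_LGC) (hLGD : T_LGD) (hSML : T_SML) (hPA3 : T_PA3) :
    T_M3 := by
  classical
  intro A ε hA hε
  set η : ℝ := min ε 1 / 7 with hη
  have hm1 : min ε 1 ≤ ε := min_le_left _ _
  have hm2 : min ε 1 ≤ 1 := min_le_right _ _
  have hm0 : 0 < min ε 1 := lt_min hε one_pos
  have hη0 : 0 < η := by positivity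
  have hη1 : η < 1 := by rw [hη]; linarith
  have hη7 : η ≤ 1 / 7 := by rw [hη]; linarith
  have hηε : 6 * η < ε := by rw [hη]; linarith
  obtain ⟨x₀, hx₀, hpa⟩ := hPA3 A η hA hη0 hη1
  have hlx₀ : 0 ≤ Real.log x₀ := Real.log_natCast_nonneg _
  refine ⟨3 + Real.log x₀ ^ A, ?_⟩
  intro x hx S hS
  have hx' : (2 : ℝ) ≤ x := by exact_mod_cast hx
  have hlx : 0 < Real.log x := Real.log_pos (by linarith)
  have hlxA : 0 < Real.log x ^ A := Real.rpow_pos_of_pos hlx A
  have hlx₀A : 0 ≤ Real.log x₀ ^ A := Real.rpow_nonneg hlx₀ A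
  rcases lt_or_ge x x₀ with hlt | hge
  · -- small x
    have h1 : S ⊆ Icc 1 x := by
      intro n hn
      obtain ⟨h1, _, h3, _⟩ := hS n hn
      exact Finset.mem_Icc.mpr ⟨h3.le, h1⟩
    have h2 : (S.card : ℝ) ≤ x := by
      have h3 := Finset.card_le_card h1
      rw [Nat.card_Icc, Nat.add_sub_cancel] at h3
      exact_mod_cast h3
    have h3 : Real.log x ^ A ≤ Real.log x₀ ^ A := by
      apply Real.rpow_le_rpow hlx.le _ hA.le
      exact Real.log_le_log (by linarith) (by exact_mod_cast hlt.le)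
    rw [le_div_iff₀ hlxA]
    have h4 : (S.card : ℝ) * Real.log x ^ A ≤ x * Real.log x₀ ^ A :=
      mul_le_mul h2 h3 hlxA.le (by linarith)
    nlinarith
  obtain ⟨Z, K, W, hK, hZ, hW, h4K, hP10, hZL, hWx, hn1, hn2, hn3⟩ := hpa x hge
  set S1 := S.filter fun n => 2 * Nat.log 2 n < Nat.log 2 x ∨
    ∃ l p, 2 ^ l < n ∧ p.Prime ∧ p ^ 2 ∣ n - 2 ^ l ∧ W < p with hS1
  set S2 := S.filter fun n => η * Nat.log 2 x ≤ NP x W (P0 Z 1) n with hS2
  have hb1 : (S1.card : ℝ) ≤ 2 * (x / Real.log x ^ A) := by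
    have h1 := hSML x W S1 (by omega) hW (by
      intro n hn
      rw [hS1, Finset.mem_filter] at hn
      exact ⟨(hS n hn.1).1, hn.2⟩)
    have hx0 : (0 : ℝ) ≤ x := by linarith
    have h2 : ((Nat.log 2 x : ℝ) + 1) * (x / W) ≤ x / Real.log x ^ A := by
      have h3 : ((Nat.log 2 x : ℝ) + 1) * (x / W) = x * (((Nat.log 2 x + 1 : ℕ) : ℝ) / W) := by
        push_cast
        ring
      rw [h3]
      calc x * (((Nat.log 2 x + 1 : ℕ) : ℝ) / W) ≤ x * (1 / Real.log x ^ A) :=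
            mul_le_mul_of_nonneg_left hn2 hx0
        _ = x / Real.log x ^ A := by ring
    linarith
  have hb2 : (S2.card : ℝ) ≤ x / Real.log x ^ A := by
    have h1 := hLGC x Z K W η S2 hη0 hZ hK h4K hZL hWx (by
      intro n hn
      rw [hS2, Finset.mem_filter] at hn
      exact ⟨(hS n hn.1).1, hn.2⟩)
    refine h1.trans ?_
    calc 2 * (4 / (η * Z)) ^ K * (x : ℝ) ≤ 1 / Real.log x ^ A * x :=
          mul_le_mul_of_nonneg_right hn1 (by linarith)
      _ = x / Real.log x ^ A := by ring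
  have hcov : S ⊆ S1 ∪ S2 := by
    intro n hn
    by_contra hc
    rw [Finset.mem_union, not_or] at hc
    obtain ⟨hc1, hc2⟩ := hc
    rw [hS1, Finset.mem_filter, not_and, not_or] at hc1
    rw [hS2, Finset.mem_filter, not_and] at hc2
    obtain ⟨hc3, hc4⟩ := hc1 hn
    have hc5 := hc2 hn
    push Not at hc3 hc4 hc5
    obtain ⟨hnx, hodd, hn1', hbig⟩ := hS n hn
    -- the set of primes
    set F := (range (2 ^ (Nat.log 2 n + 1))).filter fun p => OP p ∧ mm p ≤ Nat.log 2 n with hF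
    have hFiff : ∀ p, p ∈ F ↔ OP p ∧ mm p ≤ Nat.log 2 n := by
      intro p
      rw [hF, Finset.mem_filter, Finset.mem_range]
      refine ⟨fun h => h.2, fun h => ⟨?_, h⟩⟩
      obtain ⟨_, h2, _⟩ := Pool.Agent.H14.SQ.pf_ORD p h.1
      calc p ≤ p ^ 2 := Nat.le_self_pow (by norm_num) p
        _ < 2 ^ mm p := h2
        _ ≤ 2 ^ (Nat.log 2 n + 1) := Nat.pow_le_pow_right (by norm_num) (by omega)
    have hLam1 : 1 ≤ Nat.log 2 n := Nat.log_pos (by norm_num) (by omega)
    have hLamR : (1 : ℝ) ≤ (Nat.log 2 n : ℝ) := by exact_mod_cast hLam1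
    have hLL : (Nat.log 2 x : ℝ) ≤ 2 * (Nat.log 2 n : ℝ) := by exact_mod_cast hc3
    have hP0n : P0 Z 1 ≤ Nat.log 2 n := by
      have h1 : (P0 Z 1 : ℝ) ≤ Nat.log 2 n := by
        have h2 : η * (Nat.log 2 x : ℝ) ≤ 1 / 7 * (Nat.log 2 x : ℝ) :=
          mul_le_mul_of_nonneg_right hη7 (Nat.cast_nonneg _)
        linarith
      exact_mod_cast h1
    have hL := hLGD x n Z W η F hodd hn1' hnx hc3 hP0n hZ (fun l p h1 h2 h3 => hc4 l p h1 h2 h3)
      hc5.le hFiff
    obtain ⟨hL1, hL2, hL3⟩ := hL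
    have hUF := (hUUF F n fun p hp => ((hFiff p).mp hp).1).1
    -- the logarithm
    have hl2 : 0 < Real.log 2 := Real.log_pos (by norm_num)
    have hnpos : (0 : ℝ) < n := by exact_mod_cast (by omega : 0 < n)
    have hlam1 : (Nat.log 2 n : ℝ) ≤ Real.log n / Real.log 2 := by
      rw [le_div_iff₀ hl2, ← Real.log_pow]
      apply Real.log_le_log (by positivity)
      exact_mod_cast Nat.pow_log_le_self 2 (by omega : n ≠ 0)
    have hlam2 : Real.log n / Real.log 2 < (Nat.log 2 n : ℝ) + 1 := by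
      rw [div_lt_iff₀ hl2]
      have h1 : (n : ℝ) < 2 ^ (Nat.log 2 n + 1) := by
        exact_mod_cast Nat.lt_pow_succ_log_self (by norm_num) n
      have h2 := Real.log_lt_log hnpos h1
      rw [Real.log_pow] at h2
      push_cast at h2
      exact h2
    have h6 := close_end hη0 hLamR hlam1 hlam2 hLL hP10 hUF.1 hUF.2 hL1 hL2 hL3
    have h7 := hbig F hFiff
    linarith
  have h1 : (S.card : ℝ) ≤ S1.card + S2.card := by
    exact_mod_cast (Finset.card_le_card hcov).trans (Finset.card_union_le _ _)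
  have hxA : 0 ≤ (x : ℝ) / Real.log x ^ A := by positivity
  calc (S.card : ℝ) ≤ 3 * (x / Real.log x ^ A) := by linarith
    _ ≤ (3 + Real.log x₀ ^ A) * (x / Real.log x ^ A) :=
        mul_le_mul_of_nonneg_right (by linarith) hxA
    _ = (3 + Real.log x₀ ^ A) * x / Real.log x ^ A := by ring

end Pool.Agent.H1.SF
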