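import Pool.Agent.H58.SF.Targets
import Pool.Agent.H68.IT.M4

/-!
# Bipartite templates: the constraint satisfaction problem is in P
-/

set_option autoImplicit false

namespace Pool.Agent.H1.SF

open Function
open Pool.Agent.H1.PNP Pool.Agent.H1.NP Pool.Agent.H68.OQP
open Pool.Agent.H68.NPH (Cd.iteG_out)
open Pool.Agent.H68.BP (Str IsHom strOf CSP Sig code csp_code graph width_digraph ph cV
  code_of_cV ph_vals polyOn_numsR lgF csp_true mem_P_of_manyOne)
open Pool.Agent.H17.PR (Pe Blk Arc T_PAT pat)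
open Pool.Agent.H17.DG (IsHomo)
open Pool.Agent.H68.IT (sigE strE manyOne_eq manyOne_str csp_arc csp_bad)
open Pool.Agent.H58.SF (T_P2)

/-! ### The trivial template -/

/-- the trivial template -/
def tri : Str Sig.digraph Unit := graph (fun _ _ => True)

theorem csp_tri (x : List Bool) : CSP tri x = true ↔ cV.tv (ph 3 x) [] := by
  constructor
  · intro h
    obtain ⟨n, L, h1, rfl⟩ := csp_true tri h
    obtain ⟨M, hM, h0, -, -, h3, -⟩ := ph_vals (σ := Sig.digraph) (n := n) (L := L) h1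
    rw [width_digraph] at hM
    have hM' : ph 3 (code n L) = M := hM
    rw [hM']
    simp only [cV, Pool.Agent.H68.NPH.tv_and, Pool.Agent.H68.NPH.tv_le,
      Pool.Agent.H68.NPH.tv_eq, Ex.val, h0, h3]
    exact ⟨le_rfl, trivial⟩
  · intro h
    have h' : cV.tv (ph (Sig.digraph.width + 1) x) [] := by
      rw [width_digraph]
      exact h
    obtain ⟨n, L, h1, rfl⟩ := code_of_cV (σ := Sig.digraph) h'
    rw [csp_code tri h1]
    exact ⟨fun _ => (), fun _ _ _ => trivial⟩

/-- the program for the trivial template -/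
def gD : Gn := cV.iteG (.bit true) (.bit false)

theorem tri_mem_P : CSP tri ∈ N68a2faeb.P := by
  classical
  have h : PolyOn (fun w : List Bool => w) (fun b : Bool => [b]) (CSP tri) :=
    ((polyOn_numsR.comp (polyOn_lg (lgF 3))).comp (polyOn_gen gD)).congr (fun q => q)
      (fun _ => rfl) (fun q => by
        show gD.out (ph 3 q) [] = [CSP tri q]
        unfold gD
        rw [Cd.iteG_out]
        by_cases hq : cV.tv (ph 3 q) []
        · rw [if_pos hq, (csp_tri q).2 hq]
          rfl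
        · rw [if_neg hq]
          have : CSP tri q = false := by
            rw [← Bool.not_eq_true]
            exact fun h => hq ((csp_tri q).1 h)
          rw [this]
          rfl)
  exact (polyOn_dec.comp h).tm

/-! ### Reductions from digraphs -/

theorem red_of {G B : Type} [Nonempty B] {τ : Sig} (E : G → G → Prop) (𝔹 : Str τ B)
    (Bs : List Blk)
    (hyp : ∀ n L, (∀ c ∈ L, c.length = 3) →
      ((∃ f : Fin n → G, IsHomo (fun u v : Fin n => Arc n L u v) E f) ↔
        (∀ b ∈ Bs, b.fls = true → ∀ h, ¬ b.Occ n L h) ∧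
        ∃ f : ℕ → B, ∀ b ∈ Bs, ∀ h, b.Occ n L h → ∀ r ∈ b.rows, ∀ l : Fin τ.m,
          (r 0).val n h = l → 𝔹 l (fun i => f ((r (i + 1)).val n h)))) :
    N793a5b8e.ManyOneReducible (CSP (graph E)) (CSP 𝔹) := by
  obtain ⟨red, h1, h2, h3⟩ := pat τ Bs
  refine manyOne_str h1 fun x => ?_
  by_cases hx : ∃ n L, (∀ c ∈ L, c.length = 3) ∧ code n L = x
  · obtain ⟨n, L, hL, rfl⟩ := hx
    rw [csp_arc E hL, h3 B inferInstance 𝔹 n L hL]
    exact hyp n L hL
  · constructor
    · intro h
      exact absurd h (csp_bad E hx)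
    · intro h
      rw [h2 B 𝔹 x hx] at h
      cases h

/-- the pattern of a loop -/
def lpB : Blk where
  q := 1
  arcs := [(0, 0)]
  cov := by
    intro v
    exact ⟨(0, 0), List.mem_singleton.2 rfl, Or.inl (Subsingleton.elim _ _)⟩
  rows := []
  fls := true

/-- the pattern of an arc -/
def arB : Blk where
  q := 2
  arcs := [(0, 1)]
  cov := by
    intro v
    refine ⟨(0, 1), List.mem_singleton.2 rfl, ?_⟩
    revert v
    decide
  rows := []
  fls := true

/-- the template of the disequality -/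
theorem ne_mem_P : CSP (graph (fun a b : ℕ => a ≠ b)) ∈ N68a2faeb.P := by
  refine mem_P_of_manyOne (red_of (fun a b : ℕ => a ≠ b) tri [lpB] ?_) tri_mem_P
  intro n L _
  constructor
  · rintro ⟨f, hf⟩
    refine ⟨?_, fun _ => (), ?_⟩
    · intro b hb
      obtain rfl := List.mem_singleton.1 hb
      intro _ h hocc
      have h1 := hocc ((0 : Fin 1), (0 : Fin 1)) (List.mem_singleton.2 rfl)
      exact hf ⟨_, h1.1⟩ ⟨_, h1.1⟩ h1 rfl
    · intro b hb
      obtain rfl := List.mem_singleton.1 hb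
      intro h _ r hr
      exact absurd hr List.not_mem_nil
  · rintro ⟨h1, -⟩
    refine ⟨fun v => v, ?_⟩
    intro u v huv he
    have he' : (u : ℕ) = v := he
    refine h1 lpB (List.mem_singleton.2 rfl) rfl (fun _ => (u : ℕ)) ?_
    intro e he2
    rw [List.mem_singleton.1 he2]
    show Arc n L u u
    rw [← he'] at huv
    exact huv

/-- the empty template -/
theorem empty_mem_P {D : Type} [Nonempty D] (E : D → D → Prop) (hE : ∀ x y, ¬ E x y) :
    CSP (graph E) ∈ N68a2faeb.P := by
  refine mem_P_of_manyOne (red_of E tri [arB] ?_) tri_mem_P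
  intro n L _
  constructor
  · rintro ⟨f, hf⟩
    refine ⟨?_, fun _ => (), ?_⟩
    · intro b hb
      obtain rfl := List.mem_singleton.1 hb
      intro _ h hocc
      have h1 := hocc ((0 : Fin 2), (1 : Fin 2)) (List.mem_singleton.2 rfl)
      exact hE _ _ (hf ⟨_, h1.1⟩ ⟨_, h1.2.1⟩ h1)
    · intro b hb
      obtain rfl := List.mem_singleton.1 hb
      intro h _ r hr
      exact absurd hr List.not_mem_nil
  · rintro ⟨h1, -⟩
    refine ⟨fun _ => Classical.arbitrary D, ?_⟩
    intro u v huv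
    exfalso
    refine h1 arB (List.mem_singleton.2 rfl) rfl ![(u : ℕ), (v : ℕ)] ?_
    intro e he2
    rw [List.mem_singleton.1 he2]
    exact huv

/-! ### Two colours -/

/-- one row -/
def rw3 (a : ℕ) (e e' : Pe 2) : ℕ → Pe 2 := fun p => if p = 0 then .con a else if p = 1 then e else e'

/-- the first variable of a vertex -/
def xv (v : Fin 2) : Pe 2 := .add (.vx v) (.vx v)

/-- the second variable of a vertex -/
def yv (v : Fin 2) : Pe 2 := .add (.add (.vx v) (.vx v)) (.con 1)

/-- the rows for an arc -/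
def crows : List (ℕ → Pe 2) :=
  [rw3 0 (xv 0) (yv 1), rw3 0 (yv 0) (xv 1), rw3 1 (xv 0) (yv 0), rw3 1 (xv 1) (yv 1)]

/-- the pattern for the colouring -/
def coB : Blk where
  q := 2
  arcs := [(0, 1)]
  cov := by
    intro v
    refine ⟨(0, 1), List.mem_singleton.2 rfl, ?_⟩
    revert v
    decide
  rows := crows
  fls := false

/-- the template with the disequality and the equality -/
abbrev NE : Str (sigE Sig.digraph) ℕ := strE (graph (fun a b : ℕ => a ≠ b))

theorem row0 (n : ℕ) (h : Fin 2 → ℕ) (f : ℕ → ℕ) (e e' : Pe 2) :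
    (∀ l : Fin (sigE Sig.digraph).m, ((rw3 0 e e') 0).val n h = l →
      NE l (fun p => f (((rw3 0 e e') (p + 1)).val n h))) ↔ f (e.val n h) = f (e'.val n h) := by
  constructor
  · intro h1
    exact h1 (0 : Fin 2) rfl
  · intro h1 l hl
    have hl' : l = (0 : Fin 2) := Fin.ext hl.symm
    subst hl'
    exact h1

theorem row1 (n : ℕ) (h : Fin 2 → ℕ) (f : ℕ → ℕ) (e e' : Pe 2) :
    (∀ l : Fin (sigE Sig.digraph).m, ((rw3 1 e e') 0).val n h = l →
      NE l (fun p => f (((rw3 1 e e') (p + 1)).val n h))) ↔ f (e.val n h) ≠ f (e'.val n h) := by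
  constructor
  · intro h1
    exact h1 (1 : Fin 2) rfl
  · intro h1 l hl
    have hl' : l = (1 : Fin 2) := Fin.ext hl.symm
    subst hl'
    exact h1

theorem rows_iff (n : ℕ) (h : Fin 2 → ℕ) (f : ℕ → ℕ) :
    (∀ r ∈ crows, ∀ l : Fin (sigE Sig.digraph).m, (r 0).val n h = l →
      NE l (fun p => f ((r (p + 1)).val n h))) ↔
      f (h 0 + h 0) = f (h 1 + h 1 + 1) ∧ f (h 0 + h 0 + 1) = f (h 1 + h 1) ∧
        f (h 0 + h 0) ≠ f (h 0 + h 0 + 1) ∧ f (h 1 + h 1) ≠ f (h 1 + h 1 + 1) := by
  unfold crows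
  rw [List.forall_mem_cons, List.forall_mem_cons, List.forall_mem_cons, List.forall_mem_cons,
    row0, row0, row1, row1]
  constructor
  · rintro ⟨h1, h2, h3, h4, -⟩
    exact ⟨h1, h2, h3, h4⟩
  · rintro ⟨h1, h2, h3, h4⟩
    exact ⟨h1, h2, h3, h4, fun r hr => absurd hr List.not_mem_nil⟩

theorem bip_mem_P {D : Type} (E : D → D → Prop) (c : D → Bool) (hs : ∀ x y, E x y → E y x)
    (hc : ∀ x y, E x y → c x ≠ c y) (a b : D) (hab : E a b) : CSP (graph E) ∈ N68a2faeb.P := by
  refine mem_P_of_manyOne (red_of E NE [coB] ?_) (mem_P_of_manyOne (manyOne_eq _ _) ne_mem_P)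
  intro n L _
  have hfls : ∀ b ∈ [coB], b.fls = true → ∀ h, ¬ b.Occ n L h := by
    intro b hb hb2
    rw [List.mem_singleton.1 hb] at hb2
    cases hb2
  have key : ∀ f : ℕ → ℕ, (∀ b ∈ [coB], ∀ h, b.Occ n L h → ∀ r ∈ b.rows,
      ∀ l : Fin (sigE Sig.digraph).m, (r 0).val n h = l → NE l (fun i => f ((r (i + 1)).val n h))) ↔
      ∀ u v, Arc n L u v → f (u + u) = f (v + v + 1) ∧ f (u + u + 1) = f (v + v) ∧
        f (u + u) ≠ f (u + u + 1) ∧ f (v + v) ≠ f (v + v + 1) := by
    intro f
    constructor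
    · intro h1 u v huv
      have h2 := h1 coB (List.mem_singleton.2 rfl) ![u, v] (by
        intro e he
        rw [List.mem_singleton.1 he]
        exact huv)
      exact (rows_iff n ![u, v] f).1 h2
    · intro h1 b hb
      obtain rfl := List.mem_singleton.1 hb
      intro h hocc
      have h2 := hocc ((0 : Fin 2), (1 : Fin 2)) (List.mem_singleton.2 rfl)
      exact (rows_iff n h f).2 (h1 _ _ h2)
  constructor
  · rintro ⟨g, hg⟩
    refine ⟨hfls, ?_⟩
    obtain ⟨d, hd⟩ : ∃ d : ℕ → Bool, ∀ v : Fin n, d v = c (g v) :=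
      ⟨fun v => if hv : v < n then c (g ⟨v, hv⟩) else true, fun v => dif_pos v.2⟩
    obtain ⟨F, hF⟩ : ∃ F : ℕ → ℕ, ∀ p, F p = if (d (p / 2) = true ↔ p % 2 = 0) then 1 else 0 :=
      ⟨_, fun _ => rfl⟩
    refine ⟨F, (key F).2 ?_⟩
    intro u v huv
    have h1 := hc _ _ (hg ⟨u, huv.1⟩ ⟨v, huv.2.1⟩ huv)
    rw [← hd, ← hd] at h1
    have e1 : (u + u) / 2 = u := by omega
    have e2 : (v + v + 1) / 2 = v := by omega
    have e3 : (u + u + 1) / 2 = u := by omega
    have e4 : (v + v) / 2 = v := by omega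
    have e5 : (u + u) % 2 = 0 := by omega
    have e6 : (v + v + 1) % 2 = 1 := by omega
    have e7 : (u + u + 1) % 2 = 1 := by omega
    have e8 : (v + v) % 2 = 0 := by omega
    simp only [hF, e1, e2, e3, e4, e5, e6, e7, e8]
    change d u ≠ d v at h1
    cases hu : d u <;> cases hv : d v <;> simp_all
  · rintro ⟨-, f, hf⟩
    have hf' := (key f).1 hf
    classical
    refine ⟨fun v => if f ((v : ℕ) + v) < f (v + v + 1) then a else b, ?_⟩
    intro u v huv
    obtain ⟨h1, h2, h3, h4⟩ := hf' u v huv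
    show E (if f ((u : ℕ) + u) < f (u + u + 1) then a else b)
      (if f ((v : ℕ) + v) < f (v + v + 1) then a else b)
    by_cases h5 : f ((u : ℕ) + u) < f (u + u + 1)
    · rw [if_pos h5, if_neg (by omega)]
      exact hab
    · rw [if_neg h5, if_pos (by omega)]
      exact hs _ _ hab

theorem pf_P2 : T_P2 := by
  intro D E c hD hs hc
  by_cases h : ∃ a b, E a b
  · obtain ⟨a, b, hab⟩ := h
    exact bip_mem_P E c hs hc a b hab
  · exact empty_mem_P E fun x y hxy => h ⟨x, y, hxy⟩

end Pool.Agent.H1.SF
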