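import Pool.Agent.H3.SF.Targets

/-!
# Row RES of the board spw (helper3, MP_634266_nt)

Counting in residue classes.
-/

set_option autoImplicit false

namespace Pool.Agent.H1.SF

open Finset Pool.Agent.H3.SF Pool.Agent.H99.SQ

theorem pf_RES : T_RES := by
  classical
  intro Q q Q2 c R A B hQ hq hQ2 hco hdvd hB hR hA hcl
  obtain ⟨t, ht⟩ := hdvd
  have hQq : 0 < Q * q := Nat.mul_pos hQ hq
  have htpos : 0 < t := by
    rcases Nat.eq_zero_or_pos t with h | h
    · rw [h, mul_zero] at ht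
      omega
    · exact h
  set C := (range Q2).filter fun c' => c' ≡ c [MOD Q] ∧ c' % q ∈ R with hC
  have hmaps : ∀ n ∈ A, n % Q2 ∈ C := by
    intro n hn
    rw [hC, Finset.mem_filter, Finset.mem_range]
    obtain ⟨h1, h2⟩ := hA n hn
    have hd : Q * q ∣ Q2 := ⟨t, ht⟩
    refine ⟨Nat.mod_lt _ hQ2, ?_, ?_⟩
    · exact ((Nat.mod_modEq n Q2).of_dvd ((dvd_mul_right Q q).trans hd)).trans h1
    · rw [Nat.mod_mod_of_dvd _ ((dvd_mul_left q Q).trans hd)]
      exact h2
  have hcard : A.card = ∑ c' ∈ C, (A.filter fun n => n % Q2 = c').card :=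
    Finset.card_eq_sum_card_fiberwise hmaps
  have hfib : ∀ c' ∈ C, ((A.filter fun n => n % Q2 = c').card : ℝ) ≤ B / Q2 := by
    intro c' hc'
    rw [hC, Finset.mem_filter, Finset.mem_range] at hc'
    have e1 : (A.filter fun n => n % Q2 = c') = A.filter fun n => n ≡ c' [MOD Q2] := by
      refine Finset.filter_congr fun n _ => ?_
      unfold Nat.ModEq
      rw [Nat.mod_eq_of_lt hc'.1]
    rw [e1]
    exact hcl c'
  have hCcard : C.card ≤ R.card * t := by
    have h1 : C.card ≤ (R ×ˢ range t).card := by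
      apply Finset.card_le_card_of_injOn (fun c' => (c' % q, c' / (Q * q)))
      · intro c' hc'
        rw [Finset.mem_coe, hC, Finset.mem_filter, Finset.mem_range] at hc'
        rw [Finset.mem_coe, Finset.mem_product, Finset.mem_range]
        refine ⟨hc'.2.2, ?_⟩
        rw [Nat.div_lt_iff_lt_mul hQq, mul_comm, ← ht]
        exact hc'.1
      · intro c₁ h₁ c₂ h₂ h
        rw [Finset.mem_coe, hC, Finset.mem_filter, Finset.mem_range] at h₁ h₂
        rw [Prod.mk.injEq] at h
        obtain ⟨h3, h4⟩ := h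
        have h5 : c₁ ≡ c₂ [MOD Q] := h₁.2.1.trans h₂.2.1.symm
        have h6 : c₁ ≡ c₂ [MOD q] := h3
        have h7 : c₁ ≡ c₂ [MOD Q * q] := (Nat.modEq_and_modEq_iff_modEq_mul hco).mp ⟨h5, h6⟩
        rw [← Nat.div_add_mod c₁ (Q * q), ← Nat.div_add_mod c₂ (Q * q), h4, h7]
    rwa [Finset.card_product, Finset.card_range] at h1
  have hBQ : 0 ≤ B / Q2 := by positivity
  have hQ' : (0 : ℝ) < Q := by exact_mod_cast hQ
  have hq' : (0 : ℝ) < q := by exact_mod_cast hq
  have ht' : (0 : ℝ) < t := by exact_mod_cast htpos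
  calc (A.card : ℝ) = ∑ c' ∈ C, ((A.filter fun n => n % Q2 = c').card : ℝ) := by
        rw [hcard]
        push_cast
        rfl
    _ ≤ ∑ _c' ∈ C, B / Q2 := Finset.sum_le_sum hfib
    _ = C.card * (B / Q2) := by rw [Finset.sum_const, nsmul_eq_mul]
    _ ≤ ((R.card * t : ℕ) : ℝ) * (B / Q2) :=
        mul_le_mul_of_nonneg_right (by exact_mod_cast hCcard) hBQ
    _ = R.card * B / (Q * q) := by
        rw [ht]
        push_cast
        field_simp

end Pool.Agent.H1.SF
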