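import Pool.Agent.H3.SF.Targets

/-!
# Row W1 of the board spw (helper3, MP_634266_nt)

Averages of periodic functions over the odd numbers.
-/

set_option autoImplicit false

namespace Pool.Agent.H1.SF

open Finset Filter Topology Pool.Agent.H3.SF Pool.Agent.H99.SQ

theorem per_mul {f : ℕ → ℝ} {M : ℕ} (hf : ∀ n, f (n + M) = f n) (q n : ℕ) :
    f (M * q + n) = f n := by
  induction q with
  | zero => rw [mul_zero, zero_add]
  | succ q ih =>
    have e : M * (q + 1) + n = M * q + n + M := by ring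
    rw [e, hf, ih]

theorem per_sum {f : ℕ → ℝ} {M : ℕ} (hf : ∀ n, f (n + M) = f n) (q r : ℕ) :
    ∑ n ∈ range (M * q + r), f n = q * ∑ n ∈ range M, f n + ∑ n ∈ range r, f n := by
  have h1 : ∀ q : ℕ, ∑ n ∈ range (M * q), f n = q * ∑ n ∈ range M, f n := by
    intro q
    induction q with
    | zero => simp
    | succ q ih =>
      rw [mul_add, mul_one, Finset.sum_range_add, ih,
        Finset.sum_congr rfl fun n _ => per_mul hf q n]
      push_cast
      ring
  rw [Finset.sum_range_add, h1, Finset.sum_congr rfl fun n _ => per_mul hf q n]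

theorem per_bound {f : ℕ → ℝ} {M : ℕ} (hM : 0 < M) (hf : ∀ n, f (n + M) = f n) (x : ℕ) :
    |∑ n ∈ range (x + 1), f n - x / M * ∑ n ∈ range M, f n| ≤
      |∑ n ∈ range M, f n| + ∑ n ∈ range M, |f n| := by
  have hM' : (0 : ℝ) < M := by exact_mod_cast hM
  set q := (x + 1) / M with hq
  set r := (x + 1) % M with hr
  have hdiv : M * q + r = x + 1 := Nat.div_add_mod _ _
  have hrM : r < M := Nat.mod_lt _ hM
  rw [← hdiv, per_sum hf]
  have h1 : (q : ℝ) * ∑ n ∈ range M, f n + ∑ n ∈ range r, f n - x / M * ∑ n ∈ range M, f n =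
      (q - x / M) * ∑ n ∈ range M, f n + ∑ n ∈ range r, f n := by ring
  rw [h1]
  have h2 : |((q : ℝ) - x / M)| ≤ 1 := by
    have h3 : (M : ℝ) * q + r = x + 1 := by exact_mod_cast hdiv
    have h4 : (q : ℝ) - x / M = (1 - r) / M := by
      field_simp
      linarith
    have h5 : (r : ℝ) + 1 ≤ M := by exact_mod_cast hrM
    have h6 : (0 : ℝ) ≤ r := Nat.cast_nonneg _
    rw [h4, abs_div, abs_of_pos hM', div_le_one hM', abs_le]
    constructor <;> linarith
  calc _ ≤ |((q : ℝ) - x / M) * ∑ n ∈ range M, f n| + |∑ n ∈ range r, f n| := abs_add_le _ _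
    _ ≤ _ := by
      rw [abs_mul]
      apply add_le_add
      · exact mul_le_of_le_one_left (abs_nonneg _) h2
      · refine (Finset.abs_sum_le_sum_abs _ _).trans ?_
        exact Finset.sum_le_sum_of_subset_of_nonneg (Finset.range_subset_range.mpr hrM.le)
          fun _ _ _ => abs_nonneg _

theorem pf_W1 : T_W1 := by
  classical
  intro Q h hQ hper
  have hQ0 : 0 < Q := hQ.pos
  have hQ' : (0 : ℝ) < Q := by exact_mod_cast hQ0
  set f : ℕ → ℝ := fun n => if Odd n then h n else 0 with hf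
  have hh : ∀ n, h (Q + n) = h n := fun n => by rw [add_comm, hper]
  have hfper : ∀ n, f (n + 2 * Q) = f n := by
    intro n
    have h1 : Odd (n + 2 * Q) ↔ Odd n := by
      have h2 : Even (2 * Q) := ⟨Q, by ring⟩
      rw [Nat.odd_add]
      exact ⟨fun h => h.mpr h2, fun h => ⟨fun _ => h2, fun _ => h⟩⟩
    have h3 : h (n + 2 * Q) = h n := by
      have e : n + 2 * Q = n + Q + Q := by ring
      rw [e, hper, hper]
    simp only [hf, h1, h3]
  have hsum : ∑ n ∈ range (2 * Q), f n = ∑ a ∈ range Q, h a := by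
    have e : 2 * Q = Q + Q := by ring
    rw [e, Finset.sum_range_add, ← Finset.sum_add_distrib]
    refine Finset.sum_congr rfl fun n _ => ?_
    simp only [hf, hh]
    by_cases hn : Odd n
    · have h1 : ¬ Odd (Q + n) := by
        rw [Nat.not_odd_iff_even]
        exact hQ.add_odd hn
      rw [if_pos hn, if_neg h1, add_zero]
    · have h1 : Odd (Q + n) := hQ.add_even (Nat.not_odd_iff_even.mp hn)
      rw [if_neg hn, if_pos h1, zero_add]
  set Cb : ℝ := |∑ n ∈ range (2 * Q), f n| + ∑ n ∈ range (2 * Q), |f n| with hCb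
  have hbd := per_bound (f := f) (M := 2 * Q) (by omega) hfper
  have hfs : ∀ x : ℕ, ∑ n ∈ (range (x + 1)).filter Odd, h n = ∑ n ∈ range (x + 1), f n := by
    intro x
    rw [Finset.sum_filter]
  rw [tendsto_iff_norm_sub_tendsto_zero]
  have hlim : Tendsto (fun x : ℕ => Cb / ((x : ℝ) / 2)) atTop (𝓝 0) := by
    apply Tendsto.div_atTop tendsto_const_nhds
    exact tendsto_natCast_atTop_atTop.atTop_div_const (by norm_num)
  refine squeeze_zero_norm' ?_ hlim
  filter_upwards [eventually_gt_atTop 0] with x hx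
  have hx' : (0 : ℝ) < x := by exact_mod_cast hx
  rw [hfs, norm_norm, Real.norm_eq_abs, ← hsum]
  have h1 : (∑ n ∈ range (x + 1), f n) / ((x : ℝ) / 2) - (∑ n ∈ range (2 * Q), f n) / Q =
      (∑ n ∈ range (x + 1), f n - x / ((2 * Q : ℕ) : ℝ) * ∑ n ∈ range (2 * Q), f n) /
        ((x : ℝ) / 2) := by
    push_cast
    field_simp
  rw [h1, abs_div, abs_of_pos (by positivity : (0 : ℝ) < (x : ℝ) / 2)]
  exact div_le_div_of_nonneg_right (hbd x) (by positivity)

end Pool.Agent.H1.SF
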